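import Mathlib

/-!
Averaged contractions on a normed space are uniformly asymptotically regular (binomial estimate),
and the perturbation argument giving a fixed point free, uniformly asymptotically regular map
on the unit ball of an equivalent norm.
-/

namespace Pool.Agent.P.MP_7b51c2_an

open Filter Topology Finset

/-- binomial weight -/
noncomputable def bw (l : ℝ) (n k : ℕ) : ℝ := (n.choose k : ℝ) * l ^ k * (1 - l) ^ (n - k)

theorem bw_nonneg {l : ℝ} (h0 : 0 ≤ l) (h1 : l ≤ 1) (n k : ℕ) : 0 ≤ bw l n k := by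
  unfold bw
  have : 0 ≤ 1 - l := by linarith
  positivity

theorem bw_sum {l : ℝ} (h0 : 0 ≤ l) (h1 : l ≤ 1) (n : ℕ) :
    ∑ k ∈ range (n + 1), bw l n k = 1 := by
  have := bernstein.probability n ⟨l, h0, h1⟩
  simp only [bernstein_apply] at this
  rw [Finset.sum_range]
  exact this

theorem bw_var {l : ℝ} (h0 : 0 ≤ l) (h1 : l ≤ 1) {n : ℕ} (hn : n ≠ 0) :
    ∑ k ∈ range (n + 1), (l - (k : ℝ) / n) ^ 2 * bw l n k = l * (1 - l) / n := by
  have := bernstein.variance hn ⟨l, h0, h1⟩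
  simp only [bernstein_apply, bernstein.z] at this
  rw [Finset.sum_range]
  exact this

theorem bw_diff {l : ℝ} (h1 : l < 1) (n k : ℕ) (hk : k ≤ n + 1) :
    bw l (n + 1) k - bw l n k = bw l (n + 1) k * (((k : ℝ) / ((n + 1 : ℕ) : ℝ) - l) / (1 - l)) := by
  have hl : (1 - l) ≠ 0 := by linarith
  have hn : ((n + 1 : ℕ) : ℝ) ≠ 0 := by positivity
  unfold bw
  rcases Nat.lt_or_ge k (n + 1) with hlt | hge
  · have hk' : k ≤ n := by omega
    have e1 : n + 1 - k = (n - k) + 1 := by omega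
    have e2 : ((n.choose k : ℕ) : ℝ) * ((n + 1 : ℕ) : ℝ)
        = ((n + 1).choose k : ℝ) * (((n + 1 : ℕ) : ℝ) - k) := by
      have := Nat.choose_mul_succ_eq n k
      have h3 : ((n + 1 - k : ℕ) : ℝ) = ((n + 1 : ℕ) : ℝ) - k := by
        rw [Nat.cast_sub (by omega)]
      rw [← h3]
      exact_mod_cast this
    have e3 : ((n.choose k : ℕ) : ℝ)
        = ((n + 1).choose k : ℝ) * (((n + 1 : ℕ) : ℝ) - k) / ((n + 1 : ℕ) : ℝ) := by
      rw [eq_div_iff hn]; exact e2
    rw [e1, e3, pow_succ]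
    field_simp
    ring
  · have hk' : k = n + 1 := by omega
    subst hk'
    rw [Nat.choose_eq_zero_of_lt (Nat.lt_succ_self n)]
    field_simp
    simp

theorem bw_tv {l : ℝ} (h0 : 0 ≤ l) (h1 : l < 1) (n : ℕ) {η : ℝ} (hη : 0 < η) :
    ∑ k ∈ range (n + 2), |bw l (n + 1) k - bw l n k|
      ≤ (l * (1 - l) / ((n + 1 : ℕ) : ℝ) / η + η) / (1 - l) := by
  have hl : 0 < 1 - l := by linarith
  have key : ∀ k ∈ range (n + 2), |bw l (n + 1) k - bw l n k| ≤
      ((l - (k : ℝ) / ((n + 1 : ℕ) : ℝ)) ^ 2 * bw l (n + 1) k / η + η * bw l (n + 1) k) / (1 - l) := by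
    intro k hk
    have hk' : k ≤ n + 1 := by have := mem_range.1 hk; omega
    rw [bw_diff h1 n k hk', abs_mul, abs_of_nonneg (bw_nonneg h0 h1.le _ _), abs_div,
      abs_of_pos hl, ← mul_div_assoc]
    apply div_le_div_of_nonneg_right _ hl.le
    set u := (k : ℝ) / ((n + 1 : ℕ) : ℝ) - l with hu
    have hb := bw_nonneg h0 h1.le (n + 1) k
    have e : (l - (k : ℝ) / ((n + 1 : ℕ) : ℝ)) ^ 2 = |u| ^ 2 := by
      rw [sq_abs, hu]; ring
    rw [e]
    have h2 : |u| ≤ |u| ^ 2 / η + η := by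
      have : |u| ^ 2 / η + η - |u| = ((|u| - η) ^ 2 + |u| * η) / η := by
        field_simp; ring
      have h3 : 0 ≤ ((|u| - η) ^ 2 + |u| * η) / η := by positivity
      linarith
    calc bw l (n + 1) k * |u| ≤ bw l (n + 1) k * (|u| ^ 2 / η + η) :=
          mul_le_mul_of_nonneg_left h2 hb
      _ = _ := by ring
  refine (sum_le_sum key).trans (le_of_eq ?_)
  rw [← sum_div, sum_add_distrib, ← sum_div, ← mul_sum, bw_sum h0 h1.le (n + 1),
    bw_var h0 h1.le (Nat.succ_ne_zero n), mul_one]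

variable {E : Type*} [NormedAddCommGroup E] [NormedSpace ℝ E]

theorem norm_pow_le_one' (S : E →L[ℝ] E) (hS : ‖S‖ ≤ 1) (k : ℕ) : ‖S ^ k‖ ≤ 1 := by
  induction k with
  | zero => rw [pow_zero]; exact ContinuousLinearMap.norm_id_le
  | succ k ih =>
    rw [pow_succ]
    calc ‖S ^ k * S‖ ≤ ‖S ^ k‖ * ‖S‖ := norm_mul_le _ _
      _ ≤ 1 * 1 := mul_le_mul ih hS (norm_nonneg _) zero_le_one
      _ = 1 := by ring

theorem avg_pow (S : E →L[ℝ] E) (l : ℝ) (n : ℕ) :
    (l • S + (1 - l) • (1 : E →L[ℝ] E)) ^ n = ∑ k ∈ range (n + 1), bw l n k • S ^ k := by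
  have hc : Commute (l • S) ((1 - l) • (1 : E →L[ℝ] E)) :=
    ((Commute.one_right S).smul_right _).smul_left _
  rw [hc.add_pow]
  refine sum_congr rfl fun k _ => ?_
  rw [smul_pow, smul_pow, one_pow, bw, ← nsmul_eq_mul', smul_mul_smul_comm, mul_one,
    ← Nat.cast_smul_eq_nsmul ℝ, smul_smul, mul_assoc]

theorem avg_uar (S : E →L[ℝ] E) (hS : ‖S‖ ≤ 1) {l : ℝ} (h0 : 0 ≤ l) (h1 : l < 1)
    {δ : ℝ} (hδ : 0 < δ) : ∃ N : ℕ, ∀ n ≥ N,
      ‖(l • S + (1 - l) • (1 : E →L[ℝ] E)) ^ (n + 1) - (l • S + (1 - l) • (1 : E →L[ℝ] E)) ^ n‖ ≤ δ := by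
  have hl : 0 < 1 - l := by linarith
  set η := δ * (1 - l) / 2 with hη
  have hηp : 0 < η := by positivity
  obtain ⟨N, hN⟩ := exists_nat_ge (l * (1 - l) / η / η)
  refine ⟨N, fun n hn => ?_⟩
  have e : (l • S + (1 - l) • (1 : E →L[ℝ] E)) ^ n = ∑ k ∈ range (n + 2), bw l n k • S ^ k := by
    rw [avg_pow, sum_range_succ _ (n + 1)]
    simp [bw]
  rw [e, avg_pow, ← sum_sub_distrib]
  have h2 : ‖∑ k ∈ range (n + 1 + 1), (bw l (n + 1) k • S ^ k - bw l n k • S ^ k)‖ ≤
      ∑ k ∈ range (n + 2), |bw l (n + 1) k - bw l n k| := by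
    refine (norm_sum_le _ _).trans (sum_le_sum fun k _ => ?_)
    rw [← sub_smul, norm_smul, Real.norm_eq_abs]
    exact mul_le_of_le_one_right (abs_nonneg _) (norm_pow_le_one' S hS k)
  refine h2.trans ((bw_tv h0 h1 n hηp).trans ?_)
  rw [div_le_iff₀ hl]
  have h3 : l * (1 - l) / ((n + 1 : ℕ) : ℝ) / η ≤ η := by
    have hn1 : (0 : ℝ) < ((n + 1 : ℕ) : ℝ) := by positivity
    have h4 : l * (1 - l) / η / η ≤ ((n + 1 : ℕ) : ℝ) := by
      refine hN.trans ?_
      exact_mod_cast (by omega : N ≤ n + 1)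
    rw [div_le_iff₀ hηp, div_le_iff₀ hηp] at h4
    rw [div_le_iff₀ hηp, div_le_iff₀ hn1]
    nlinarith
  have : η + η = δ * (1 - l) := by rw [hη]; ring
  linarith

/-- The abstract construction. -/
theorem abstract_uar (p : E → ℝ) (c L : ℝ) (hc : 0 < c) (hL : 0 ≤ L)
    (hp1 : ∀ x, c * ‖x‖ ≤ p x) (hp2 : ∀ x, p x ≤ ‖x‖)
    (hpc : ∀ (t : ℝ) (u v : E), 0 ≤ t → t ≤ 1 → p ((1 - t) • u + t • v) ≤ (1 - t) * p u + t * p v)
    (S : E →L[ℝ] E) (hS : ‖S‖ ≤ 1) (K : Set E) (hK : Convex ℝ K) (hK1 : ∀ x ∈ K, ‖x‖ ≤ 1)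
    (hSK : ∀ x ∈ K, S x ∈ K) (hfix : ∀ x ∈ K, S x ≠ x)
    (R : E → E) (hRK : ∀ x, R x ∈ K) (hRid : ∀ x ∈ K, R x = x)
    (hRL : ∀ x y, ‖R x - R y‖ ≤ L * ‖x - y‖) {ε : ℝ} (hε : 0 < ε) :
    ∃ T : E → E, (∀ x, p x ≤ 1 → p (T x) ≤ 1) ∧
      (∀ x y, p (T x - T y) ≤ (1 + ε) * p (x - y)) ∧
      (∀ δ > 0, ∃ N : ℕ, ∀ n ≥ N, ∀ x, p x ≤ 1 → p (T^[n] x - T^[n + 1] x) ≤ δ) ∧
      ∀ x, T x ≠ x := by
  set l : ℝ := min (1 / 2) (ε / (L / c + 1)) with hl
  have hLc : 0 ≤ L / c := by positivity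
  have hl0 : 0 < l := lt_min (by norm_num) (by positivity)
  have hl1 : l < 1 := (min_le_left _ _).trans_lt (by norm_num)
  have hlε : l * (L / c) ≤ ε := by
    have h1 : l ≤ ε / (L / c + 1) := min_le_right _ _
    rw [le_div_iff₀ (by positivity)] at h1
    nlinarith
  have hSle : ∀ x, ‖S x‖ ≤ ‖x‖ := fun x => by
    have := S.le_opNorm x
    nlinarith [norm_nonneg x]
  set T : E → E := fun x => (1 - l) • x + l • S (R x) with hT
  have hTball : ∀ x, p x ≤ 1 → p (T x) ≤ 1 := by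
    intro x hx
    have h1 := hpc l x (S (R x)) hl0.le hl1.le
    have h2 : p (S (R x)) ≤ 1 := (hp2 _).trans (hK1 _ (hSK _ (hRK x)))
    have h3 : (1 - l) * p x ≤ (1 - l) * 1 := mul_le_mul_of_nonneg_left hx (by linarith)
    have h4 : l * p (S (R x)) ≤ l * 1 := mul_le_mul_of_nonneg_left h2 hl0.le
    simp only [hT]
    linarith
  have hnorm : ∀ x, p x ≤ 1 → ‖x‖ ≤ 1 / c := by
    intro x hx
    rw [le_div_iff₀ hc]
    have := hp1 x
    linarith
  refine ⟨T, hTball, ?_, ?_, ?_⟩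
  · intro x y
    have e : T x - T y = (1 - l) • (x - y) + l • S (R x - R y) := by
      simp only [hT, map_sub, smul_sub]; abel
    rw [e]
    have h1 := hpc l (x - y) (S (R x - R y)) hl0.le hl1.le
    have hpn : 0 ≤ p (x - y) := le_trans (by positivity) (hp1 _)
    have h2 : p (S (R x - R y)) ≤ L / c * p (x - y) := by
      have h3 : ‖x - y‖ ≤ p (x - y) / c := by
        rw [le_div_iff₀ hc]; have := hp1 (x - y); linarith
      calc p (S (R x - R y)) ≤ ‖S (R x - R y)‖ := hp2 _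
        _ ≤ ‖R x - R y‖ := hSle _
        _ ≤ L * ‖x - y‖ := hRL _ _
        _ ≤ L * (p (x - y) / c) := mul_le_mul_of_nonneg_left h3 hL
        _ = L / c * p (x - y) := by ring
    have h4 : l * p (S (R x - R y)) ≤ l * (L / c * p (x - y)) :=
      mul_le_mul_of_nonneg_left h2 hl0.le
    have h5 : l * (L / c) * p (x - y) ≤ ε * p (x - y) := mul_le_mul_of_nonneg_right hlε hpn
    nlinarith
  · intro δ hδ
    set G : E →L[ℝ] E := l • S + (1 - l) • (1 : E →L[ℝ] E) with hG
    have hG1 : ‖G‖ ≤ 1 := by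
      refine ContinuousLinearMap.opNorm_le_bound _ zero_le_one fun x => ?_
      have : G x = l • S x + (1 - l) • x := by simp [hG]
      rw [this]
      calc ‖l • S x + (1 - l) • x‖ ≤ ‖l • S x‖ + ‖(1 - l) • x‖ := norm_add_le _ _
        _ = l * ‖S x‖ + (1 - l) * ‖x‖ := by
          rw [norm_smul, norm_smul, Real.norm_of_nonneg hl0.le,
            Real.norm_of_nonneg (by linarith)]
        _ ≤ l * ‖x‖ + (1 - l) * ‖x‖ := by
          have := mul_le_mul_of_nonneg_left (hSle x) hl0.le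
          linarith
        _ = 1 * ‖x‖ := by ring
    have hGle : ∀ x, ‖G x‖ ≤ ‖x‖ := fun x => by
      have := G.le_opNorm x
      nlinarith [norm_nonneg x]
    set q : ℝ := 1 - l with hq
    have hq0 : 0 < q := by linarith
    have hq1 : q < 1 := by linarith
    set C : ℝ := (L + 1) * (1 / c + 1) with hC
    have hC0 : 0 < C := by positivity
    -- approach to K
    have happ : ∀ x, p x ≤ 1 → ∀ n : ℕ, ∃ k ∈ K, ‖T^[n] x - k‖ ≤ (1 / c + 1) * q ^ n := by
      intro x hx n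
      induction n with
      | zero =>
        refine ⟨R x, hRK x, ?_⟩
        simp only [Function.iterate_zero, id, pow_zero, mul_one]
        exact (norm_sub_le _ _).trans (add_le_add (hnorm x hx) (hK1 _ (hRK x)))
      | succ n ih =>
        obtain ⟨k, hk, hk2⟩ := ih
        refine ⟨q • k + l • S (R (T^[n] x)), hK hk (hSK _ (hRK _)) hq0.le hl0.le (by ring), ?_⟩
        rw [Function.iterate_succ_apply']
        have e : T (T^[n] x) - (q • k + l • S (R (T^[n] x))) = q • (T^[n] x - k) := by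
          simp only [hT, smul_sub]; abel
        rw [e, norm_smul, Real.norm_of_nonneg hq0.le, pow_succ]
        nlinarith
    have herr : ∀ x, p x ≤ 1 → ∀ n : ℕ, ‖T^[n + 1] x - G (T^[n] x)‖ ≤ l * (C * q ^ n) := by
      intro x hx n
      obtain ⟨k, hk, hk2⟩ := happ x hx n
      rw [Function.iterate_succ_apply']
      set y := T^[n] x
      have e : T y - G y = l • S (R y - y) := by
        simp only [hT, hG, map_sub, smul_sub, add_apply,
          smul_apply, one_apply_eq_self]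
        abel
      rw [e, norm_smul, Real.norm_of_nonneg hl0.le]
      apply mul_le_mul_of_nonneg_left _ hl0.le
      have h1 : ‖R y - y‖ ≤ ‖R y - R k‖ + ‖y - k‖ := by
        rw [hRid k hk]
        calc ‖R y - y‖ = ‖(R y - k) - (y - k)‖ := by congr 1; abel
          _ ≤ _ := norm_sub_le _ _
      calc ‖S (R y - y)‖ ≤ ‖R y - y‖ := hSle _
        _ ≤ L * ‖y - k‖ + ‖y - k‖ := h1.trans (add_le_add_left (hRL _ _) _)
        _ = (L + 1) * ‖y - k‖ := by ring
        _ ≤ (L + 1) * ((1 / c + 1) * q ^ n) := mul_le_mul_of_nonneg_left hk2 (by positivity)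
        _ = C * q ^ n := by rw [hC]; ring
    have htrack : ∀ x, p x ≤ 1 → ∀ N m : ℕ,
        ‖T^[N + m] x - (G ^ m) (T^[N] x)‖ ≤ C * (q ^ N - q ^ (N + m)) := by
      intro x hx N m
      induction m with
      | zero => simp
      | succ m ih =>
        have e : T^[N + (m + 1)] x - (G ^ (m + 1)) (T^[N] x)
            = (T^[N + m + 1] x - G (T^[N + m] x)) + G (T^[N + m] x - (G ^ m) (T^[N] x)) := by
          rw [pow_succ', map_sub, mul_apply_eq_comp, ← add_assoc N m 1]; abel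
        rw [e]
        have h1 := herr x hx (N + m)
        have h2 := (hGle _).trans ih
        have h3 : q ^ (N + (m + 1)) = q ^ (N + m) * q := by rw [← add_assoc, pow_succ]
        calc _ ≤ l * (C * q ^ (N + m)) + C * (q ^ N - q ^ (N + m)) :=
              (norm_add_le _ _).trans (add_le_add h1 h2)
          _ = C * (q ^ N - q ^ (N + (m + 1))) := by
              rw [h3]; have : l = 1 - q := by rw [hq]; ring
              rw [this]; ring
    obtain ⟨N1, hN1⟩ := exists_pow_lt_of_lt_one (show 0 < δ / (4 * C) by positivity) hq1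
    obtain ⟨N2, hN2⟩ := avg_uar S hS hl0.le hl1 (show 0 < δ * c / 2 by positivity)
    refine ⟨N1 + N2, fun n hn x hx => ?_⟩
    obtain ⟨m, rfl⟩ : ∃ m, n = N1 + m := ⟨n - N1, by omega⟩
    have hm : m ≥ N2 := by omega
    have hy : p (T^[N1] x) ≤ 1 := by
      clear hN1 hn
      induction N1 with
      | zero => simpa using hx
      | succ j ih => rw [Function.iterate_succ_apply']; exact hTball _ ih
    have h1 := htrack x hx N1 m
    have h2 := htrack x hx N1 (m + 1)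
    have h3 : ‖(G ^ (m + 1) - G ^ m) (T^[N1] x)‖ ≤ δ * c / 2 * (1 / c) :=
      ((G ^ (m + 1) - G ^ m).le_opNorm _).trans
        (mul_le_mul (hN2 m hm) (hnorm _ hy) (norm_nonneg _) (by positivity))
    have h4 : δ * c / 2 * (1 / c) = δ / 2 := by field_simp
    have e : T^[N1 + m] x - T^[N1 + m + 1] x
        = (T^[N1 + m] x - (G ^ m) (T^[N1] x)) - (T^[N1 + (m + 1)] x - (G ^ (m + 1)) (T^[N1] x))
          - (G ^ (m + 1) - G ^ m) (T^[N1] x) := by
      rw [sub_apply, ← add_assoc N1 m 1]; abel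
    have h5 : C * q ^ N1 ≤ δ / 4 := by
      rw [lt_div_iff₀ (by positivity)] at hN1
      nlinarith
    have h6 : 0 ≤ C * q ^ (N1 + m) := by positivity
    have h7 : 0 ≤ C * q ^ (N1 + (m + 1)) := by positivity
    refine (hp2 _).trans ?_
    rw [e]
    refine (norm_sub_le _ _).trans ?_
    have h8 := norm_sub_le (T^[N1 + m] x - (G ^ m) (T^[N1] x))
      (T^[N1 + (m + 1)] x - (G ^ (m + 1)) (T^[N1] x))
    nlinarith
  · intro x hx
    have h1 : l • (S (R x) - x) = 0 := by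
      have : T x - x = l • (S (R x) - x) := by
        simp only [hT, smul_sub, sub_smul, one_smul]; abel
      rw [← this, hx, sub_self]
    have h2 : S (R x) = x := by
      rcases smul_eq_zero.1 h1 with h | h
      · exact absurd h hl0.ne'
      · exact sub_eq_zero.1 h
    have h3 : x ∈ K := h2 ▸ hSK _ (hRK x)
    rw [hRid x h3] at h2
    exact hfix x h3 h2

end Pool.Agent.P.MP_7b51c2_an
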