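import Mathlib
import Pool.Agent.P.MP_7b51c2_an.Core

/-!
The shift on the positive face of the unit ball of real l1, the Lipschitz retraction onto that
face, and weighted tail norms.
-/

namespace Pool.Agent.P.MP_7b51c2_an

open Filter Topology Finset

theorem mem_of_summable {f : ℕ → ℝ} (hf : Summable fun n => |f n|) :
    Memℓp (E := fun _ : ℕ => ℝ) f 1 := by
  apply memℓp_gen
  simpa using hf

theorem hasSum_abs (x : lp (fun _ : ℕ => ℝ) 1) : HasSum (fun n => |x n|) ‖x‖ := by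
  have := lp.hasSum_norm (p := 1) (by norm_num) x
  simpa using this

theorem norm_eq_of_hasSum (x : lp (fun _ : ℕ => ℝ) 1) {a : ℝ} (h : HasSum (fun n => |x n|) a) :
    ‖x‖ = a := (hasSum_abs x).unique h

/-- the right shift of a sequence -/
def shiftSeq (f : ℕ → ℝ) : ℕ → ℝ
  | 0 => 0
  | n + 1 => f n

theorem hasSum_shift (x : lp (fun _ : ℕ => ℝ) 1) :
    HasSum (fun n => |shiftSeq x n|) ‖x‖ := by
  rw [← hasSum_nat_add_iff' 1]
  simpa [shiftSeq] using hasSum_abs x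

/-- the right shift as a linear map -/
noncomputable def shiftL : lp (fun _ : ℕ => ℝ) 1 →ₗ[ℝ] lp (fun _ : ℕ => ℝ) 1 where
  toFun x := ⟨shiftSeq x, mem_of_summable (hasSum_shift x).summable⟩
  map_add' x y := by
    ext n
    cases n with
    | zero => exact (add_zero (0 : ℝ)).symm
    | succ n => rfl
  map_smul' c x := by
    ext n
    cases n <;> simp [shiftSeq]

theorem shiftL_apply (x : lp (fun _ : ℕ => ℝ) 1) (n : ℕ) : shiftL x n = shiftSeq x n := rfl

theorem norm_shiftL (x : lp (fun _ : ℕ => ℝ) 1) : ‖shiftL x‖ = ‖x‖ :=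
  norm_eq_of_hasSum _ (hasSum_shift x)

/-- the right shift as a continuous linear map -/
noncomputable def shiftC : lp (fun _ : ℕ => ℝ) 1 →L[ℝ] lp (fun _ : ℕ => ℝ) 1 :=
  shiftL.mkContinuous 1 fun x => by rw [norm_shiftL, one_mul]

theorem shiftC_apply (x : lp (fun _ : ℕ => ℝ) 1) : shiftC x = shiftL x := rfl

theorem norm_shiftC : ‖shiftC‖ ≤ 1 := LinearMap.mkContinuous_norm_le _ zero_le_one _

/-- the positive face of the unit ball -/
def face : Set (lp (fun _ : ℕ => ℝ) 1) := {x | (∀ n, 0 ≤ x n) ∧ ‖x‖ = 1}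

theorem norm_add_of_nonneg {x y : lp (fun _ : ℕ => ℝ) 1} (hx : ∀ n, 0 ≤ x n) (hy : ∀ n, 0 ≤ y n) :
    ‖x + y‖ = ‖x‖ + ‖y‖ := by
  apply norm_eq_of_hasSum
  have := (hasSum_abs x).add (hasSum_abs y)
  convert this using 2 with n
  rw [abs_of_nonneg (hx n), abs_of_nonneg (hy n)]
  exact abs_of_nonneg (add_nonneg (hx n) (hy n))

theorem convex_face : Convex ℝ face := by
  intro x hx y hy a b ha hb hab
  have h1 : ∀ n, 0 ≤ (a • x) n := fun n => mul_nonneg ha (hx.1 n)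
  have h2 : ∀ n, 0 ≤ (b • y) n := fun n => mul_nonneg hb (hy.1 n)
  refine ⟨fun n => add_nonneg (h1 n) (h2 n), ?_⟩
  rw [norm_add_of_nonneg h1 h2, norm_smul, norm_smul, hx.2, hy.2, Real.norm_of_nonneg ha,
    Real.norm_of_nonneg hb]
  linarith

theorem shift_face {x : lp (fun _ : ℕ => ℝ) 1} (hx : x ∈ face) : shiftC x ∈ face := by
  refine ⟨fun n => ?_, ?_⟩
  · rw [shiftC_apply, shiftL_apply]
    cases n with
    | zero => exact le_rfl
    | succ n => exact hx.1 n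
  · rw [shiftC_apply, norm_shiftL, hx.2]

theorem shift_ne {x : lp (fun _ : ℕ => ℝ) 1} (hx : x ∈ face) : shiftC x ≠ x := by
  intro h
  have h0 : ∀ n, x n = 0 := by
    intro n
    induction n with
    | zero => rw [← h]; rfl
    | succ n ih => rw [← h, shiftC_apply, shiftL_apply]; exact ih
  have : x = 0 := by ext n; simp [h0 n]
  have h2 := hx.2
  rw [this, norm_zero] at h2
  exact zero_ne_one h2

section radial
variable {E : Type*} [NormedAddCommGroup E] [NormedSpace ℝ E]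

/-- radial retraction onto the unit ball -/
noncomputable def radial (x : E) : E := (max 1 ‖x‖)⁻¹ • x

theorem norm_radial_le (x : E) : ‖radial x‖ ≤ 1 := by
  have hm : 0 < max 1 ‖x‖ := lt_max_of_lt_left one_pos
  rw [radial, norm_smul, Real.norm_of_nonneg (by positivity), inv_mul_le_iff₀ hm, mul_one]
  exact le_max_right _ _

theorem radial_of_le {x : E} (hx : ‖x‖ ≤ 1) : radial x = x := by
  rw [radial, max_eq_left hx, inv_one, one_smul]

theorem radial_lip (x y : E) : ‖radial x - radial y‖ ≤ 2 * ‖x - y‖ := by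
  set a := max 1 ‖x‖ with ha
  set b := max 1 ‖y‖ with hb
  have ha1 : 1 ≤ a := le_max_left _ _
  have hb1 : 1 ≤ b := le_max_left _ _
  have ha0 : 0 < a := by linarith
  have hb0 : 0 < b := by linarith
  have hyb : ‖y‖ ≤ b := le_max_right _ _
  have hab : |b - a| ≤ ‖x - y‖ := by
    rw [abs_sub_comm]
    refine (abs_max_sub_max_le_max _ _ _ _).trans ?_
    rw [sub_self, abs_zero]
    exact max_le (norm_nonneg _) (abs_norm_sub_norm_le x y)
  have e : radial x - radial y = a⁻¹ • (x - y) + (a⁻¹ * (b - a)) • (b⁻¹ • y) := by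
    simp only [radial, ← ha, ← hb, smul_sub, smul_smul]
    have : a⁻¹ * (b - a) * b⁻¹ = a⁻¹ - b⁻¹ := by field_simp
    rw [this, sub_smul]; abel
  have hi : a⁻¹ ≤ 1 := inv_le_one_of_one_le₀ ha1
  have hi0 : 0 ≤ a⁻¹ := by positivity
  have h1 : ‖a⁻¹ • (x - y)‖ ≤ ‖x - y‖ := by
    rw [norm_smul, Real.norm_of_nonneg hi0]
    exact mul_le_of_le_one_left (norm_nonneg _) hi
  have h2 : ‖b⁻¹ • y‖ ≤ 1 := norm_radial_le y
  have h3 : ‖(a⁻¹ * (b - a)) • (b⁻¹ • y)‖ ≤ ‖x - y‖ := by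
    rw [norm_smul, Real.norm_eq_abs, abs_mul, abs_of_nonneg hi0]
    calc a⁻¹ * |b - a| * ‖b⁻¹ • y‖ ≤ 1 * ‖x - y‖ * 1 := by gcongr
      _ = ‖x - y‖ := by ring
  rw [e]
  refine (norm_add_le _ _).trans ?_
  linarith

end radial

/-- the first unit vector -/
noncomputable def e0 : lp (fun _ : ℕ => ℝ) 1 := lp.single 1 0 (1 : ℝ)

theorem norm_e0 : ‖e0‖ = 1 := by
  rw [e0, lp.norm_single (by norm_num)]; simp

theorem e0_nonneg (n : ℕ) : 0 ≤ e0 n := by
  rw [e0, lp.single_apply]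
  by_cases h : n = 0
  · subst h; simp
  · simp [Pi.single_eq_of_ne h]

/-- retraction of the unit ball onto the positive face -/
noncomputable def toFace (y : lp (fun _ : ℕ => ℝ) 1) : lp (fun _ : ℕ => ℝ) 1 :=
  lp.toNorm y + (1 - ‖y‖) • e0

theorem toNorm_apply (y : lp (fun _ : ℕ => ℝ) 1) (n : ℕ) : lp.toNorm y n = |y n| := rfl

theorem toFace_mem {y : lp (fun _ : ℕ => ℝ) 1} (hy : ‖y‖ ≤ 1) : toFace y ∈ face := by
  have h1 : ∀ n, 0 ≤ lp.toNorm y n := fun n => abs_nonneg _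
  have h2 : ∀ n, 0 ≤ ((1 - ‖y‖) • e0) n := fun n => mul_nonneg (by linarith) (e0_nonneg n)
  refine ⟨fun n => add_nonneg (h1 n) (h2 n), ?_⟩
  rw [toFace, norm_add_of_nonneg h1 h2, lp.norm_toNorm, norm_smul, norm_e0,
    Real.norm_of_nonneg (by linarith)]
  ring

theorem toFace_of_mem {y : lp (fun _ : ℕ => ℝ) 1} (hy : y ∈ face) : toFace y = y := by
  rw [toFace, hy.2, sub_self, zero_smul, add_zero]
  ext n
  rw [toNorm_apply, abs_of_nonneg (hy.1 n)]

theorem toNorm_lip (x y : lp (fun _ : ℕ => ℝ) 1) : ‖lp.toNorm x - lp.toNorm y‖ ≤ ‖x - y‖ := by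
  refine hasSum_le (fun n => ?_) (hasSum_abs _) (hasSum_abs _)
  exact abs_abs_sub_abs_le_abs_sub (x n) (y n)

theorem toFace_lip (x y : lp (fun _ : ℕ => ℝ) 1) : ‖toFace x - toFace y‖ ≤ 2 * ‖x - y‖ := by
  have e : toFace x - toFace y = (lp.toNorm x - lp.toNorm y) + (‖y‖ - ‖x‖) • e0 := by
    simp only [toFace, sub_smul]; abel
  rw [e]
  refine (norm_add_le _ _).trans ?_
  have h1 := toNorm_lip x y
  have h2 : ‖(‖y‖ - ‖x‖) • e0‖ ≤ ‖x - y‖ := by
    rw [norm_smul, norm_e0, mul_one, Real.norm_eq_abs, abs_sub_comm]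
    exact abs_norm_sub_norm_le x y
  linarith

section weighted
variable (g : ℕ → ℝ)

theorem summable_tail (x : lp (fun _ : ℕ => ℝ) 1) (k : ℕ) : Summable fun n => |x (n + k)| :=
  (summable_nat_add_iff (f := fun n => |x n|) k).2 (hasSum_abs x).summable

theorem tail_le (x : lp (fun _ : ℕ => ℝ) 1) (k : ℕ) : ∑' n, |x (n + k)| ≤ ‖x‖ := by
  have h := (hasSum_abs x).summable.sum_add_tsum_nat_add k
  rw [(hasSum_abs x).tsum_eq] at h
  have : 0 ≤ ∑ i ∈ range k, |x i| := sum_nonneg fun _ _ => abs_nonneg _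
  linarith

theorem tail_nonneg (x : lp (fun _ : ℕ => ℝ) 1) (k : ℕ) : 0 ≤ ∑' n, |x (n + k)| :=
  tsum_nonneg fun _ => abs_nonneg _

variable {g}

theorem term_le (hg1 : ∀ k, g k ≤ 1) (x : lp (fun _ : ℕ => ℝ) 1) (k : ℕ) :
    g k * ∑' n, |x (n + k)| ≤ ‖x‖ :=
  (mul_le_of_le_one_left (tail_nonneg x k) (hg1 k)).trans (tail_le x k)

theorem weighted_uar (hg0 : ∀ k, 0 ≤ g k) (hg1 : ∀ k, g k ≤ 1) (hg : 0 < g 0)
    (p : lp (fun _ : ℕ => ℝ) 1 → ℝ) (hp : ∀ x, p x = ⨆ k : ℕ, g k * ∑' n, |x (n + k)|)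
    {ε : ℝ} (hε : 0 < ε) :
    ∃ T : lp (fun _ : ℕ => ℝ) 1 → lp (fun _ : ℕ => ℝ) 1, (∀ x, p x ≤ 1 → p (T x) ≤ 1) ∧
      (∀ x y, p (T x - T y) ≤ (1 + ε) * p (x - y)) ∧
      (∀ δ > 0, ∃ N : ℕ, ∀ n ≥ N, ∀ x, p x ≤ 1 → p (T^[n] x - T^[n + 1] x) ≤ δ) ∧
      ∀ x, T x ≠ x := by
  have hb : ∀ x : lp (fun _ : ℕ => ℝ) 1,
      BddAbove (Set.range fun k : ℕ => g k * ∑' n, |x (n + k)|) := by
    intro x
    refine ⟨‖x‖, ?_⟩
    rintro _ ⟨k, rfl⟩
    exact term_le hg1 x k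
  have hle : ∀ (x : lp (fun _ : ℕ => ℝ) 1) (k : ℕ), g k * ∑' n, |x (n + k)| ≤ p x := by
    intro x k
    rw [hp]
    exact le_ciSup (hb x) k
  refine abstract_uar p (g 0) 4 hg (by norm_num) ?_ ?_ ?_ shiftC norm_shiftC face convex_face
    (fun x hx => hx.2.le) (fun x hx => shift_face hx) (fun x hx => shift_ne hx)
    (fun x => toFace (radial x)) (fun x => toFace_mem (norm_radial_le x)) ?_ ?_ hε
  · intro x
    have := hle x 0
    simp only [add_zero] at this
    rwa [(hasSum_abs x).tsum_eq] at this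
  · intro x
    rw [hp]
    exact ciSup_le fun k => term_le hg1 x k
  · intro t u v ht0 ht1
    rw [hp]
    refine ciSup_le fun k => ?_
    have h1 : ∑' n, |((1 - t) • u + t • v) (n + k)|
        ≤ (1 - t) * ∑' n, |u (n + k)| + t * ∑' n, |v (n + k)| := by
      refine hasSum_le (fun n => ?_) (summable_tail _ k).hasSum
        (((summable_tail u k).hasSum.mul_left (1 - t)).add ((summable_tail v k).hasSum.mul_left t))
      have e : ((1 - t) • u + t • v) (n + k) = (1 - t) * u (n + k) + t * v (n + k) := rfl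
      rw [e]
      refine (abs_add_le _ _).trans (le_of_eq ?_)
      rw [abs_mul, abs_mul, abs_of_nonneg ht0, abs_of_nonneg (by linarith : 0 ≤ 1 - t)]
    have h2 := mul_le_mul_of_nonneg_left h1 (hg0 k)
    have h3 := mul_le_mul_of_nonneg_left (hle u k) (by linarith : 0 ≤ 1 - t)
    have h4 := mul_le_mul_of_nonneg_left (hle v k) ht0
    nlinarith
  · intro x hx
    show toFace (radial x) = x
    rw [radial_of_le hx.2.le, toFace_of_mem hx]
  · intro x y
    have h1 := toFace_lip (radial x) (radial y)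
    have h2 := radial_lip x y
    show ‖toFace (radial x) - toFace (radial y)‖ ≤ 4 * ‖x - y‖
    linarith

end weighted

end Pool.Agent.P.MP_7b51c2_an
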